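import Pool.Agent.Q121.Rotor.Split

set_option autoImplicit false

/-!
# The new rotors have the target as escape sequence
-/

namespace Q121.Rotor

lemma gen_det {B k : ℕ} {f f' : ℕ → ℕ → Prop} {e e' : ℕ → Prop} {K K' : ℕ → ℕ}
    (hG : Gen B k f e K) (hG' : Gen B k f' e' K') (n : ℕ) (hK : K n = K' n)
    (hJ : J e n = J e' n)
    (hf : ∀ i, K n < i → i ≤ B → (f i (J e n - ind i k) ↔ f' i (J e n - ind i k))) :
    (e n ↔ e' n) ∧ K (n + 1) = K' (n + 1) := by
  rcases hG.2 n with ⟨a1, a2, a3, a4, a5⟩ | ⟨a1, a2, a3⟩ <;>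
  rcases hG'.2 n with ⟨c1, c2, c3, c4, c5⟩ | ⟨c1, c2, c3⟩
  · rw [← hK] at c2 c5
    rw [← hJ] at c4
    refine ⟨⟨fun _ => c1, fun _ => a1⟩, ?_⟩
    rcases lt_trichotomy (K (n + 1)) (K' (n + 1)) with h | h | h
    · have := c5 _ a2 h
      rw [← hJ] at this
      exact absurd ((hf _ a2 a3).1 a4) this
    · exact h
    · exact absurd ((hf _ c2 c3).2 c4) (a5 _ c2 h)
  · rw [← hK, ← hJ] at c3
    exact absurd ((hf _ a2 a3).1 a4) (c3 _ a2 a3)
  · rw [← hK] at c2
    rw [← hJ] at c4
    exact absurd ((hf _ c2 c3).2 c4) (a3 _ c2 c3)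
  · exact ⟨⟨fun h => absurd h a1, fun h => absurd h c1⟩, by rw [a2, c2]⟩

lemma J_le (e : ℕ → Prop) (n : ℕ) : J e n ≤ n := by
  have := J_add_O e n
  omega

lemma zeros_of_J (e : ℕ → Prop) (n : ℕ) (h : J e n = n) (m : ℕ) (hm : m < n) : ¬ e m := by
  intro he
  have h1 := J_add_O e n
  have h2 := O_succ_of e m he
  have h3 := O_mono e (show m + 1 ≤ n from hm)
  omega

/-- Existence of targets for the children. -/
lemma exists_targets (b r : List ℕ → ℕ) (hr : r [] ≤ b []) (e' : ℕ → Prop)
    (hrel : Rel e' (Esc b r)) :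
    ∃ f' : ℕ → ℕ → Prop, (∃ K', Gen (b []) (newRotor (b []) (r []) (Esc b r) e') f' e' K') ∧
      ∀ i, 1 ≤ i → i ≤ b [] → Rel (f' i) (Esc (sub i b) (sub i r)) := by
  obtain ⟨f', K', h1, h2⟩ := split (gen_actual b r hr) e' hrel
  exact ⟨f', ⟨K', h1⟩, h2⟩

open scoped Classical in
/-- The targets for the children. -/
noncomputable def ct (b r : List ℕ → ℕ) (e' : ℕ → Prop) : ℕ → ℕ → Prop :=
  if h : r [] ≤ b [] ∧ Rel e' (Esc b r) then Classical.choose (exists_targets b r h.1 e' h.2)
  else fun _ _ => False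

lemma ct_spec (b r : List ℕ → ℕ) (hr : r [] ≤ b []) (e' : ℕ → Prop) (hrel : Rel e' (Esc b r)) :
    (∃ K', Gen (b []) (newRotor (b []) (r []) (Esc b r) e') (ct b r e') e' K') ∧
      ∀ i, 1 ≤ i → i ≤ b [] → Rel (ct b r e' i) (Esc (sub i b) (sub i r)) := by
  unfold ct
  rw [dif_pos ⟨hr, hrel⟩]
  exact Classical.choose_spec (exists_targets b r hr e' hrel)

/-- The new rotors. -/
noncomputable def newR : List ℕ → (List ℕ → ℕ) → (List ℕ → ℕ) → (ℕ → Prop) → ℕ
  | [], b, r, e' => newRotor (b []) (r []) (Esc b r) e'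
  | i :: w, b, r, e' => newR w (sub i b) (sub i r) (ct b r e' i)

/-- The new rotor configuration. -/
noncomputable def newConf (b r : List ℕ → ℕ) (e' : ℕ → Prop) : List ℕ → ℕ :=
  fun v => newR v b r e'

lemma sub_newConf (b r : List ℕ → ℕ) (e' : ℕ → Prop) (i : ℕ) :
    sub i (newConf b r e') = newConf (sub i b) (sub i r) (ct b r e' i) := rfl

lemma newConf_nil (b r : List ℕ → ℕ) (e' : ℕ → Prop) :
    newConf b r e' [] = newRotor (b []) (r []) (Esc b r) e' := rfl

lemma newRotor_le {B k : ℕ} (h : k ≤ B) (e e' : ℕ → Prop) : newRotor B k e e' ≤ B := by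
  unfold newRotor
  split_ifs
  · exact le_rfl
  · exact h

lemma newConf_le : ∀ (v : List ℕ) (b r : List ℕ → ℕ) (e' : ℕ → Prop), (∀ v, r v ≤ b v) →
    newConf b r e' v ≤ b v := by
  intro v
  induction v with
  | nil => intro b r e' h; exact newRotor_le (h []) _ _
  | cons i w ih => intro b r e' h; exact ih (sub i b) (sub i r) _ (fun v => h (i :: v))

/-- Everything agrees before the index `m`. -/
lemma agree (m : ℕ) (ihm : ∀ m' < m, ∀ (b r : List ℕ → ℕ) (e' : ℕ → Prop), (∀ v, r v ≤ b v) →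
      Rel e' (Esc b r) → (Esc b (newConf b r e') m' ↔ e' m'))
    (b r : List ℕ → ℕ) (e' : ℕ → Prop) (hr : ∀ v, r v ≤ b v) (hrel : Rel e' (Esc b r))
    (K' : ℕ → ℕ) (hK' : Gen (b []) (newRotor (b []) (r []) (Esc b r) e') (ct b r e') e' K') :
    ∀ n, n ≤ m → rot b (newConf b r e') n [] = K' n ∧ J (Esc b (newConf b r e')) n = J e' n := by
  have hle : newConf b r e' [] ≤ b [] := newConf_le [] b r e' hr
  have hG := gen_actual b (newConf b r e') hle
  have hct := (ct_spec b r (hr []) e' hrel).2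
  intro n
  induction n with
  | zero =>
    intro _
    refine ⟨?_, by rw [J_zero, J_zero]⟩
    rw [hK'.1]
    rfl
  | succ n ih =>
    intro hn
    obtain ⟨h1, h2⟩ := ih (by omega)
    have h3 := gen_det hG hK' n h1 h2 (by
      intro i hi hi'
      rw [sub_newConf]
      have h4 := J_le (Esc b (newConf b r e')) n
      exact ihm _ (by omega) (sub i b) (sub i r) _ (fun v => hr (i :: v)) (hct i (by omega) hi'))
    refine ⟨h3.2, ?_⟩
    by_cases h : e' n
    · rw [J_succ_of e' n h, J_succ_of _ n (h3.1.2 h), h2]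
    · rw [J_succ_not e' n h, J_succ_not _ n (fun h' => h (h3.1.1 h')), h2]

lemma compareP (m : ℕ) (ihm : ∀ m' < m, ∀ (b r : List ℕ → ℕ) (e' : ℕ → Prop),
      (∀ v, r v ≤ b v) → Rel e' (Esc b r) → (Esc b (newConf b r e') m' ↔ e' m')) (τ : ℕ) :
    ∀ (b r : List ℕ → ℕ) (e' : ℕ → Prop), T b (rot b (newConf b r e') m) = τ →
      (∀ v, r v ≤ b v) → Rel e' (Esc b r) → ¬ Esc b (newConf b r e') m → ¬ e' m := by
  induction τ using Nat.strong_induction_on with
  | _ τ ih =>
    intro b r e' hτ hr hrel hE he'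
    obtain ⟨⟨K', hK'⟩, hct⟩ := ct_spec b r (hr []) e' hrel
    obtain ⟨h1, h2⟩ := agree m ihm b r e' hr hrel K' hK' m le_rfl
    obtain ⟨g1, g2, g3⟩ := gen_one hK' he'
    have hle : newConf b r e' [] ≤ b [] := newConf_le [] b r e' hr
    rw [← h1] at g1
    have h3 := time_lt b (newConf b r e') hle m hE (K' (m + 1)) g1 g2
    rw [h2, sub_newConf, newConf_nil] at h3
    have h4 := J_le e' m
    rcases Nat.lt_or_ge (J e' m - ind (K' (m + 1)) (newRotor (b []) (r []) (Esc b r) e')) m
      with h5 | h5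
    · exact h3.1 ((ihm _ h5 (sub _ b) (sub _ r) _ (fun v => hr (_ :: v))
        (hct _ (by omega) g2)).2 g3)
    · have h6 : J e' m - ind (K' (m + 1)) (newRotor (b []) (r []) (Esc b r) e') = m := by omega
      rw [h6] at h3 g3
      rw [hτ] at h3
      exact ih _ h3.2 (sub _ b) (sub _ r) _ rfl (fun v => hr (_ :: v)) (hct _ (by omega) g2)
        h3.1 g3

lemma compareQ (m : ℕ) (ihm : ∀ m' < m, ∀ (b r : List ℕ → ℕ) (e' : ℕ → Prop),
      (∀ v, r v ≤ b v) → Rel e' (Esc b r) → (Esc b (newConf b r e') m' ↔ e' m')) (τ : ℕ) :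
    ∀ (b r : List ℕ → ℕ) (e' : ℕ → Prop), T b r = τ →
      (∀ v, r v ≤ b v) → Rel e' (Esc b r) → ¬ e' m → ¬ Esc b (newConf b r e') m := by
  induction τ using Nat.strong_induction_on with
  | _ τ ih =>
    intro b r e' hτ hr hrel he' hE
    obtain ⟨⟨K', hK'⟩, hct⟩ := ct_spec b r (hr []) e' hrel
    obtain ⟨h1, h2⟩ := agree m ihm b r e' hr hrel K' hK' m le_rfl
    have hle : newConf b r e' [] ≤ b [] := newConf_le [] b r e' hr
    have hG := gen_actual b (newConf b r e') hle
    obtain ⟨g1, g2, g3⟩ := gen_one hG hE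
    rw [h1] at g1
    set i0 := rot b (newConf b r e') (m + 1) [] with hi0
    have hno : ¬ ct b r e' i0 (J e' m - ind i0 (newRotor (b []) (r []) (Esc b r) e')) := by
      rcases hK'.2 m with ⟨a1, _⟩ | ⟨_, _, a3⟩
      · exact absurd a1 he'
      · exact a3 i0 g1 g2
    rw [h2, newConf_nil, sub_newConf] at g3
    have h4 := J_le e' m
    rcases Nat.lt_or_ge (J e' m - ind i0 (newRotor (b []) (r []) (Esc b r) e')) m with h5 | h5
    · exact hno ((ihm _ h5 (sub _ b) (sub _ r) _ (fun v => hr (_ :: v))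
        (hct _ (by omega) g2)).1 g3)
    · have h6 : J e' m - ind i0 (newRotor (b []) (r []) (Esc b r) e') = m := by omega
      rw [h6] at g3 hno
      have h7 : J e' m = m := by omega
      have h0' : ¬ e' 0 := by
        rcases Nat.eq_zero_or_pos m with h | h
        · subst h; exact he'
        · exact zeros_of_J e' m h7 0 h
      by_cases h0 : Esc b r 0
      · have h8 : newRotor (b []) (r []) (Esc b r) e' = b [] := by
          unfold newRotor
          rw [if_pos ⟨h0, h0'⟩]
        rw [h8] at h6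
        unfold ind at h6
        rw [if_pos g2] at h6
        have h9 : m = 0 := by omega
        -- then `K' 0 = b []`
        subst h9
        rw [hK'.1, h8] at g1
        omega
      · have h8 : newRotor (b []) (r []) (Esc b r) e' = r [] := by
          unfold newRotor
          rw [if_neg (fun h => h0 h.1)]
        have h9 : r [] < i0 := by
          rw [h8] at h6
          unfold ind at h6
          split_ifs at h6 with h
          · have : m = 0 := by omega
            subst this
            rw [hK'.1, h8] at g1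
            exact g1
          · omega
        have h10 := time_lt b r (hr []) 0 h0 i0 h9 g2
        rw [J_zero, Nat.zero_sub] at h10
        have h11 : T (sub i0 b) (sub i0 r) < τ := by
          rw [← hτ]
          exact h10.2
        exact ih _ h11 (sub i0 b) (sub i0 r) _ rfl (fun v => hr (_ :: v))
          (hct _ (by omega) g2) hno g3

/-- The new configuration has the target as its escape sequence. -/
lemma compare (m : ℕ) : ∀ (b r : List ℕ → ℕ) (e' : ℕ → Prop), (∀ v, r v ≤ b v) →
      Rel e' (Esc b r) → (Esc b (newConf b r e') m ↔ e' m) := by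
  induction m using Nat.strong_induction_on with
  | _ m ihm =>
    intro b r e' hr hrel
    constructor
    · intro h
      by_contra h'
      exact compareQ m ihm _ b r e' rfl hr hrel h' h
    · intro h
      by_contra h'
      exact compareP m ihm _ b r e' rfl hr hrel h' h

/-- Downward closure, in terms of predicates. -/
theorem main (b r : List ℕ → ℕ) (hr : ∀ v, r v ≤ b v) (e' : ℕ → Prop)
    (h : ∀ n, e' n → Esc b r n) :
    ∃ r' : List ℕ → ℕ, (∀ v, r' v ≤ b v) ∧ ∀ n, Esc b r' n ↔ e' n := by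
  refine ⟨newConf b r e', fun v => newConf_le v b r e' hr, fun n => compare n b r e' hr ?_⟩
  refine ⟨id, fun n hn => ⟨h n hn, le_rfl⟩, ?_⟩
  intro n n' hnn _ _
  simp only [id]
  omega

end Q121.Rotor
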