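import Mathlib

set_option autoImplicit false

/-!
# Rotor walks on trees: definitions

A rooted tree with root `ρ` of degree one, all degrees finite and ordered children is encoded by the
function `b : List ℕ → ℕ` giving numbers of children. The vertices other than `ρ` are addresses:
`[]` is the child of `ρ`, and the children of the vertex `v` are
`v ++ [1], ..., v ++ [b v]`. (Lists which are not of this form play no role.)
A position of the particle is an element of `Option (List ℕ)`, with `none` for the root `ρ`.
A rotor configuration is a function `r : List ℕ → ℕ` with `r v ≤ b v` for all `v`.
-/

namespace Q121.Rotor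

/-- The vertex to which the rotor at `v` points if its value is `k`: the parent of `v` if `k = 0`
(the root `ρ` if `v = []`), and the `k`-th child of `v` otherwise. -/
def target (v : List ℕ) (k : ℕ) : Option (List ℕ) :=
  if k = 0 then (if v = [] then none else some v.dropLast) else some (v ++ [k])

/-- One step of the rotor walk, acting on pairs (position of the particle, rotors).
From the root `ρ` the particle moves to its child. At a vertex `v` the rotor is first advanced
(modulo `b v + 1`), and then the particle moves to the vertex the rotor points to. -/
def step (b : List ℕ → ℕ) : Option (List ℕ) × (List ℕ → ℕ) → Option (List ℕ) × (List ℕ → ℕ)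
  | (none, R) => (some [], R)
  | (some v, R) => (target v ((R v + 1) % (b v + 1)),
      Function.update R v ((R v + 1) % (b v + 1)))

/-- The state after `t` steps of the walk of a particle started at `ρ` with rotors `R`. -/
def walk (b : List ℕ → ℕ) (R : List ℕ → ℕ) (t : ℕ) : Option (List ℕ) × (List ℕ → ℕ) :=
  (step b)^[t] (none, R)

/-- The particle started at `ρ` with rotors `R` returns to `ρ`. -/
def Returns (b : List ℕ → ℕ) (R : List ℕ → ℕ) : Prop := ∃ t, 0 < t ∧ (walk b R t).1 = none

open scoped Classical in
/-- The rotors after the walk of a particle: the rotors at the first return to `ρ` if the particle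
returns, and the limiting values of the rotors if it escapes. -/
noncomputable def next (b : List ℕ → ℕ) (R : List ℕ → ℕ) : List ℕ → ℕ :=
  if h : Returns b R then (walk b R (Nat.find h)).2
  else fun v => Filter.limUnder Filter.atTop (fun t => (walk b R t).2 v)

open scoped Classical in
/-- The escape sequence: the entry with index `n` is `1` if the particle number `n + 1` escapes and
`0` if it returns to `ρ`. -/
noncomputable def escapeSeq (b : List ℕ → ℕ) (r : List ℕ → ℕ) (n : ℕ) : ℕ :=
  if Returns b ((next b)^[n] r) then 0 else 1

end Q121.Rotor
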