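import Pool.Agent.Q121.Rotor.Walk

set_option autoImplicit false

/-!
# One particle, and the sequence of all particles
-/

namespace Q121.Rotor

lemma sub_exc_self (b R : List ℕ → ℕ) (i : ℕ) :
    sub i (exc b i R) = next (sub i b) (sub i R) := by
  funext w
  simp [sub, exc, glue]

lemma sub_exc_ne (b R : List ℕ → ℕ) (i j : ℕ) (h : j ≠ i) :
    sub j (exc b i R) = sub j R := by
  funext w
  simp [sub, exc, glue, h]

lemma exc_nil (b R : List ℕ → ℕ) (i : ℕ) : exc b i R [] = i := by
  simp [exc, glue]

/-- The effect of one particle in case it returns from all the remaining children. -/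
lemma pass_return (b : List ℕ → ℕ) : ∀ (d : ℕ) (R : List ℕ → ℕ), R [] + d = b [] →
    (∀ i, R [] < i → i ≤ b [] → Returns (sub i b) (sub i R)) →
    Returns b R ∧ next b R [] = 0 ∧
    (∀ i, R [] < i → i ≤ b [] → sub i (next b R) = next (sub i b) (sub i R)) ∧
    (∀ i, ¬ (R [] < i ∧ i ≤ b []) → sub i (next b R) = sub i R) ∧
    (∀ i, R [] < i → i ≤ b [] → T (sub i b) (sub i R) < T b R) := by
  intro d
  induction d with
  | zero =>
    intro R hd _
    obtain ⟨h1, h2⟩ := last_step b R (by omega)
    refine ⟨h1, by simp [h2], ?_, ?_, ?_⟩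
    · intro i h3 h4; omega
    · intro i _
      rw [h2]
      funext w
      simp [sub]
    · intro i h3 h4; omega
  | succ d ih =>
    intro R hd hall
    have hlt : R [] < b [] := by omega
    have hr := hall (R [] + 1) (by omega) (by omega)
    obtain ⟨h1, h2, h3⟩ := one_step_return b R hlt hr
    set i0 := R [] + 1 with hi0
    have hn : exc b i0 R [] = i0 := exc_nil b R i0
    obtain ⟨g1, g2, g3, g4, g5⟩ := ih (exc b i0 R) (by rw [hn]; omega) (by
      intro i hi hi'
      rw [hn] at hi
      rw [sub_exc_ne b R i0 i (by omega)]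
      exact hall i (by omega) hi')
    rw [hn] at g3 g4 g5
    have hret := h1.2 g1
    refine ⟨hret, by rw [h2]; exact g2, ?_, ?_, ?_⟩
    · intro i hi hi'
      rw [h2]
      by_cases hii : i = i0
      · rw [hii, g4 i0 (by omega), sub_exc_self]
      · rw [g3 i (by omega) hi', sub_exc_ne b R i0 i hii]
    · intro i hi
      rw [h2, g4 i (by omega), sub_exc_ne b R i0 i (by omega)]
    · intro i hi hi'
      by_cases hii : i = i0
      · rw [hii]; exact (h3 hret).1
      · have := g5 i (by omega) hi'
        rw [sub_exc_ne b R i0 i hii] at this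
        exact this.trans (h3 hret).2

/-- The effect of one particle in case it escapes. -/
lemma pass_escape (b : List ℕ → ℕ) : ∀ (d : ℕ) (R : List ℕ → ℕ), R [] + d = b [] →
    (∃ i, R [] < i ∧ i ≤ b [] ∧ ¬ Returns (sub i b) (sub i R)) →
    ∃ i0, R [] < i0 ∧ i0 ≤ b [] ∧ ¬ Returns (sub i0 b) (sub i0 R) ∧
    (∀ i, R [] < i → i < i0 → Returns (sub i b) (sub i R)) ∧
    ¬ Returns b R ∧ next b R [] = i0 ∧
    (∀ i, R [] < i → i ≤ i0 → sub i (next b R) = next (sub i b) (sub i R)) ∧
    (∀ i, ¬ (R [] < i ∧ i ≤ i0) → sub i (next b R) = sub i R) := by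
  intro d
  induction d with
  | zero =>
    rintro R hd ⟨i, h1, h2, _⟩
    omega
  | succ d ih =>
    rintro R hd ⟨i1, hi1, hi1', hesc⟩
    have hlt : R [] < b [] := by omega
    by_cases hr : Returns (sub (R [] + 1) b) (sub (R [] + 1) R)
    · obtain ⟨h1, h2, _⟩ := one_step_return b R hlt hr
      set i0 := R [] + 1 with hi0
      have hn : exc b i0 R [] = i0 := exc_nil b R i0
      have hne : i1 ≠ i0 := by
        rintro rfl
        exact hesc hr
      obtain ⟨j, g1, g2, g3, g4, g5, g6, g7, g8⟩ := ih (exc b i0 R) (by rw [hn]; omega)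
        ⟨i1, by rw [hn]; omega, hi1', by rw [sub_exc_ne b R i0 i1 hne]; exact hesc⟩
      rw [hn] at g1 g4 g7 g8
      refine ⟨j, by omega, g2, ?_, ?_, fun hh => g5 (h1.1 hh), by rw [h2]; exact g6, ?_, ?_⟩
      · rw [sub_exc_ne b R i0 j (by omega)] at g3
        exact g3
      · intro i hi hi'
        by_cases hii : i = i0
        · rw [hii]; exact hr
        · have := g4 i (by omega) hi'
          rw [sub_exc_ne b R i0 i hii] at this
          exact this
      · intro i hi hi'
        rw [h2]
        by_cases hii : i = i0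
        · rw [hii, g8 i0 (by omega), sub_exc_self]
        · rw [g7 i (by omega) hi', sub_exc_ne b R i0 i hii]
      · intro i hi
        rw [h2, g8 i (by omega), sub_exc_ne b R i0 i (by omega)]
    · obtain ⟨h1, h2⟩ := one_step_escape b R hlt hr
      refine ⟨R [] + 1, by omega, by omega, hr, fun i h3 h4 => by omega, h1, ?_, ?_, ?_⟩
      · rw [h2]; exact exc_nil _ _ _
      · intro i h3 h4
        have : i = R [] + 1 := by omega
        rw [h2, this, sub_exc_self]
      · intro i h3
        rw [h2, sub_exc_ne b R _ i (by omega)]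

/-- The rotors before the particle with index `n`. -/
noncomputable def rot (b r : List ℕ → ℕ) (n : ℕ) : List ℕ → ℕ := (next b)^[n] r

lemma rot_succ (b r : List ℕ → ℕ) (n : ℕ) : rot b r (n + 1) = next b (rot b r n) :=
  Function.iterate_succ_apply' _ _ _

/-- The particle with index `n` escapes. -/
def Esc (b r : List ℕ → ℕ) (n : ℕ) : Prop := ¬ Returns b (rot b r n)

open scoped Classical in
/-- The number of zeros of `e` before `n`. -/
noncomputable def J (e : ℕ → Prop) (n : ℕ) : ℕ := Nat.count (fun m => ¬ e m) n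

lemma J_zero (e : ℕ → Prop) : J e 0 = 0 := by simp [J]

lemma J_succ_of (e : ℕ → Prop) (n : ℕ) (h : e n) : J e (n + 1) = J e n := by
  simp [J, Nat.count_succ, h]

lemma J_succ_not (e : ℕ → Prop) (n : ℕ) (h : ¬ e n) : J e (n + 1) = J e n + 1 := by
  simp [J, Nat.count_succ, h]

/-- The indicator of `i ≤ k`. -/
def ind (i k : ℕ) : ℕ := if i ≤ k then 1 else 0

/-- The trajectory: how many particles have entered the children. -/
lemma trajectory (b r : List ℕ → ℕ) (hr : r [] ≤ b []) (n : ℕ) :
    rot b r n [] ≤ b [] ∧ (J (Esc b r) n = 0 → r [] ≤ rot b r n []) ∧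
    ∀ i, 1 ≤ i → i ≤ b [] → sub i (rot b r n) =
      rot (sub i b) (sub i r) (J (Esc b r) n + ind i (rot b r n []) - ind i (r [])) := by
  induction n with
  | zero =>
    refine ⟨hr, fun _ => le_rfl, ?_⟩
    intro i _ _
    have : rot b r 0 = r := rfl
    rw [this, J_zero]
    simp [rot]
  | succ n ih =>
    obtain ⟨h1, h2, h3⟩ := ih
    rw [rot_succ]
    set R := rot b r n with hR
    have hJ0 : J (Esc b r) n = 0 → r [] ≤ R [] := h2
    by_cases hesc : ∃ i, R [] < i ∧ i ≤ b [] ∧ ¬ Returns (sub i b) (sub i R)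
    · obtain ⟨i0, g1, g2, g3, g4, g5, g6, g7, g8⟩ := pass_escape b (b [] - R []) R (by omega) hesc
      have hJ : J (Esc b r) (n + 1) = J (Esc b r) n := J_succ_of _ _ g5
      refine ⟨by rw [g6]; exact g2, by rw [hJ, g6]; intro h; have := h2 h; omega, ?_⟩
      intro i hi hi'
      rw [hJ, g6]
      by_cases hc : R [] < i ∧ i ≤ i0
      · rw [g7 i hc.1 hc.2, h3 i hi hi', ← rot_succ]
        congr 1
        have e1 : ind i (R []) = 0 := by unfold ind; rw [if_neg (by omega)]
        have e2 : ind i i0 = 1 := by unfold ind; rw [if_pos hc.2]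
        rw [e1, e2]
        unfold ind
        split_ifs with h4
        · have : J (Esc b r) n ≠ 0 := fun h0 => by have := hJ0 h0; omega
          omega
        · omega
      · rw [g8 i hc, h3 i hi hi']
        congr 2
        unfold ind
        split_ifs <;> omega
    · push Not at hesc
      obtain ⟨g1, g2, g3, g4, g5⟩ := pass_return b (b [] - R []) R (by omega) hesc
      have hJ : J (Esc b r) (n + 1) = J (Esc b r) n + 1 := J_succ_not _ _ (not_not.2 g1)
      refine ⟨by rw [g2]; exact Nat.zero_le _, by rw [hJ]; intro h; omega, ?_⟩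
      intro i hi hi'
      rw [hJ, g2]
      have e0 : ind i 0 = 0 := by unfold ind; rw [if_neg (by omega)]
      rw [e0]
      by_cases hc : R [] < i
      · rw [g3 i hc hi', h3 i hi hi', ← rot_succ]
        congr 1
        have e1 : ind i (R []) = 0 := by unfold ind; rw [if_neg (by omega)]
        rw [e1]
        unfold ind
        split_ifs with h4
        · have : J (Esc b r) n ≠ 0 := fun h0 => by have := hJ0 h0; omega
          omega
        · omega
      · rw [g4 i (by omega), h3 i hi hi']
        have e1 : ind i (R []) = 1 := by unfold ind; rw [if_pos (by omega)]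
        rw [e1, Nat.add_zero]

/-- The sequence `e` is generated, at a vertex with `B` children and rotor `k`, by the sequences
`f i` of the children `i = 1, ..., B`. -/
def Gen (B k : ℕ) (f : ℕ → ℕ → Prop) (e : ℕ → Prop) (K : ℕ → ℕ) : Prop :=
  K 0 = k ∧ ∀ n,
    (e n ∧ K n < K (n + 1) ∧ K (n + 1) ≤ B ∧ f (K (n + 1)) (J e n - ind (K (n + 1)) k) ∧
      ∀ i, K n < i → i < K (n + 1) → ¬ f i (J e n - ind i k)) ∨
    (¬ e n ∧ K (n + 1) = 0 ∧ ∀ i, K n < i → i ≤ B → ¬ f i (J e n - ind i k))

/-- The actual escape sequences satisfy the recursion. -/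
lemma gen_actual (b r : List ℕ → ℕ) (hr : r [] ≤ b []) :
    Gen (b []) (r []) (fun i => Esc (sub i b) (sub i r)) (Esc b r) (fun n => rot b r n []) := by
  refine ⟨rfl, ?_⟩
  intro n
  obtain ⟨h1, h2, h3⟩ := trajectory b r hr n
  set R := rot b r n with hR
  have key : ∀ i, R [] < i → i ≤ b [] →
      (Esc (sub i b) (sub i r) (J (Esc b r) n - ind i (r [])) ↔
        ¬ Returns (sub i b) (sub i R)) := by
    intro i hi hi'
    have e1 : ind i (R []) = 0 := by unfold ind; rw [if_neg (by omega)]
    have := h3 i (by omega) hi'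
    rw [e1, Nat.add_zero] at this
    unfold Esc
    rw [this]
    rfl
  have hsucc : rot b r (n + 1) = next b R := rot_succ b r n
  simp only [hsucc]
  by_cases hesc : ∃ i, R [] < i ∧ i ≤ b [] ∧ ¬ Returns (sub i b) (sub i R)
  · left
    obtain ⟨i0, g1, g2, g3, g4, g5, g6, g7, g8⟩ := pass_escape b (b [] - R []) R (by omega) hesc
    rw [g6]
    refine ⟨g5, g1, g2, (key i0 g1 g2).2 g3, ?_⟩
    intro i hi hi'
    rw [key i hi (by omega), not_not]
    exact g4 i hi hi'
  · right
    push Not at hesc
    obtain ⟨g1, g2, g3, g4, g5⟩ := pass_return b (b [] - R []) R (by omega) hesc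
    refine ⟨not_not.2 g1, g2, ?_⟩
    intro i hi hi'
    rw [key i hi hi', not_not]
    exact hesc i hi hi'

/-- Times decrease when descending. -/
lemma time_lt (b r : List ℕ → ℕ) (hr : r [] ≤ b []) (n : ℕ) (h : ¬ Esc b r n) (i : ℕ)
    (hi : rot b r n [] < i) (hi' : i ≤ b []) :
    ¬ Esc (sub i b) (sub i r) (J (Esc b r) n - ind i (r [])) ∧
    T (sub i b) (rot (sub i b) (sub i r) (J (Esc b r) n - ind i (r []))) <
      T b (rot b r n) := by
  obtain ⟨h1, h2, h3⟩ := trajectory b r hr n
  set R := rot b r n with hR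
  have e1 : ind i (R []) = 0 := by unfold ind; rw [if_neg (by omega)]
  have h4 := h3 i (by omega) hi'
  rw [e1, Nat.add_zero] at h4
  have hesc : ¬ ∃ i, R [] < i ∧ i ≤ b [] ∧ ¬ Returns (sub i b) (sub i R) := by
    intro hesc
    obtain ⟨i0, g1, g2, g3, g4, g5, _⟩ := pass_escape b (b [] - R []) R (by omega) hesc
    exact h g5
  push Not at hesc
  obtain ⟨g1, g2, g3, g4, g5⟩ := pass_return b (b [] - R []) R (by omega) hesc
  rw [← h4]
  refine ⟨?_, g5 i hi hi'⟩
  change ¬ ¬ Returns (sub i b) (rot (sub i b) (sub i r) (J (Esc b r) n - ind i (r [])))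
  rw [← h4, not_not]
  exact hesc i hi hi'

end Q121.Rotor
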