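import Pool.Agent.Q121.Rotor.Pass

set_option autoImplicit false

/-!
# Splitting a target sequence among the children
-/

namespace Q121.Rotor

/-- The ones of `e'` can be moved to ones of `e` at positions which are not larger, in an injective
and increasing way such that no gap increases. -/
def Rel (e' e : ℕ → Prop) : Prop :=
  ∃ φ : ℕ → ℕ, (∀ n, e' n → e (φ n) ∧ φ n ≤ n) ∧
    ∀ n n', n < n' → e' n → e' n' → φ n < φ n' ∧ φ n' + n ≤ φ n + n'

lemma J_mono (e : ℕ → Prop) {n n' : ℕ} (h : n ≤ n') : J e n ≤ J e n' := by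
  induction n', h using Nat.le_induction with
  | base => exact le_rfl
  | succ n' _ ih =>
    by_cases h : e n'
    · rw [J_succ_of e n' h]; exact ih
    · rw [J_succ_not e n' h]; omega

/-- If there is no zero between `n` and `n'` then all the entries are ones. -/
lemma ones_of_J_eq (e : ℕ → Prop) {n n' : ℕ} (h : J e n = J e n') (m : ℕ) (h1 : n ≤ m)
    (h2 : m < n') : e m := by
  by_contra h3
  have h4 := J_succ_not e m h3
  have h5 := J_mono e h1
  have h6 := J_mono e (show m + 1 ≤ n' from h2)
  omega

open scoped Classical in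
/-- The number of ones before `n`. -/
noncomputable def O (e : ℕ → Prop) (n : ℕ) : ℕ := Nat.count e n

lemma O_succ_of (e : ℕ → Prop) (n : ℕ) (h : e n) : O e (n + 1) = O e n + 1 := by
  simp [O, Nat.count_succ, h]

lemma O_succ_not (e : ℕ → Prop) (n : ℕ) (h : ¬ e n) : O e (n + 1) = O e n := by
  simp [O, Nat.count_succ, h]

lemma O_mono (e : ℕ → Prop) {n n' : ℕ} (h : n ≤ n') : O e n ≤ O e n' := by
  induction n', h using Nat.le_induction with
  | base => exact le_rfl
  | succ n' _ ih =>
    by_cases h : e n'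
    · rw [O_succ_of e n' h]; omega
    · rw [O_succ_not e n' h]; exact ih

lemma J_add_O (e : ℕ → Prop) (n : ℕ) : J e n + O e n = n := by
  induction n with
  | zero => simp [J, O]
  | succ n ih =>
    by_cases h : e n
    · rw [J_succ_of e n h, O_succ_of e n h]; omega
    · rw [J_succ_not e n h, O_succ_not e n h]; omega

section rel

variable {e' e : ℕ → Prop} {φ : ℕ → ℕ} (hφ : ∀ n, e' n → e (φ n) ∧ φ n ≤ n)
    (hφ2 : ∀ n n', n < n' → e' n → e' n' → φ n < φ n' ∧ φ n' + n ≤ φ n + n')

include hφ hφ2

lemma O_gap (n : ℕ) (hn : e' n) (m : ℕ) (hm : n ≤ m) : ∀ x, φ n ≤ x →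
    (∀ l, n ≤ l → l < m → e' l → φ l < x) → O e' m + O e (φ n) ≤ O e x + O e' n := by
  induction m, hm using Nat.le_induction with
  | base =>
    intro x hx _
    have := O_mono e hx
    omega
  | succ m hm ih =>
    intro x hx1 hx2
    by_cases h : e' m
    · rw [O_succ_of e' m h]
      have h1 : φ m < x := hx2 m hm (by omega) h
      have h2 : φ n ≤ φ m := by
        rcases hm.eq_or_lt with h3 | h3
        · rw [h3]
        · exact (hφ2 n m h3 hn h).1.le
      have h4 := ih (φ m) h2 (fun l hl hl' he => (hφ2 l m hl' he h).1)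
      have h5 := O_mono e (show φ m + 1 ≤ x from h1)
      rw [O_succ_of e (φ m) (hφ m h).1] at h5
      omega
    · rw [O_succ_not e' m h]
      exact ih x hx1 (fun l hl hl' he => hx2 l hl (by omega) he)

lemma J_gap (n n' : ℕ) (h : n ≤ n') (hn : e' n) (hn' : e' n') :
    J e (φ n') + J e' n ≤ J e (φ n) + J e' n' := by
  rcases h.eq_or_lt with h | h
  · rw [h]
  · have h1 := O_gap hφ hφ2 n hn n' h.le (φ n') (hφ2 n n' h hn hn').1.le
      (fun l hl hl' he => (hφ2 l n' hl' he hn').1)
    have h2 := (hφ2 n n' h hn hn').2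
    have e1 := J_add_O e (φ n)
    have e2 := J_add_O e (φ n')
    have e3 := J_add_O e' n
    have e4 := J_add_O e' n'
    omega

lemma O_le (m : ℕ) : ∀ x, (∀ l, l < m → e' l → φ l < x) → O e' m ≤ O e x := by
  induction m with
  | zero => intro x _; simp [O]
  | succ m ih =>
    intro x hx
    by_cases h : e' m
    · rw [O_succ_of e' m h]
      have h1 : φ m < x := hx m (by omega) h
      have h4 := ih (φ m) (fun l hl he => (hφ2 l m hl he h).1)
      have h5 := O_mono e (show φ m + 1 ≤ x from h1)
      rw [O_succ_of e (φ m) (hφ m h).1] at h5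
      omega
    · rw [O_succ_not e' m h]
      exact ih x (fun l hl he => hx l (by omega) he)

lemma J_row_le (n : ℕ) (hn : e' n) : J e (φ n) ≤ J e' n := by
  have h1 := O_le hφ hφ2 n (φ n) (fun l hl he => (hφ2 l n hl he hn).1)
  have h2 := (hφ n hn).2
  have e1 := J_add_O e (φ n)
  have e3 := J_add_O e' n
  omega

lemma J_row_lt (n : ℕ) (hn : e' n) (h0 : e 0) (h0' : ¬ e' 0) : J e (φ n) + 1 ≤ J e' n := by
  have h1 := O_le hφ hφ2 n (φ n) (fun l hl he => (hφ2 l n hl he hn).1)
  have h2 := (hφ n hn).2
  have e1 := J_add_O e (φ n)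
  have e3 := J_add_O e' n
  rcases h2.eq_or_lt with h3 | h3
  · have hn0 : 1 ≤ n := by
      rcases Nat.eq_zero_or_pos n with h | h
      · subst h; exact absurd hn h0'
      · exact h
    have h4 : ∀ m, 1 ≤ m → m ≤ n → O e' m + 1 ≤ O e m := by
      intro m hm
      induction m, hm using Nat.le_induction with
      | base =>
        intro _
        have k1 := O_succ_of e 0 h0
        have k2 := O_succ_not e' 0 h0'
        rw [zero_add] at k1 k2
        rw [k1, k2]
        simp [O]
      | succ m hm ih =>
        intro hm'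
        have h5 := ih (by omega)
        by_cases h : e' m
        · have h6 := (hφ2 m n (by omega) h hn).2
          have h7 := (hφ m h).2
          have h8 : φ m = m := by omega
          have h9 := (hφ m h).1
          rw [h8] at h9
          rw [O_succ_of e' m h, O_succ_of e m h9]
          omega
        · rw [O_succ_not e' m h]
          have := O_mono e (show m ≤ m + 1 by omega)
          omega
    have h5 := h4 n hn0 le_rfl
    rw [h3] at e1 ⊢
    omega
  · omega

end rel

section gen

variable {B k : ℕ} {f : ℕ → ℕ → Prop} {e : ℕ → Prop} {K : ℕ → ℕ} (hG : Gen B k f e K)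

include hG

lemma gen_one {n : ℕ} (h : e n) : K n < K (n + 1) ∧ K (n + 1) ≤ B ∧
    f (K (n + 1)) (J e n - ind (K (n + 1)) k) := by
  rcases hG.2 n with ⟨_, h1, h2, h3, _⟩ | ⟨h1, _⟩
  · exact ⟨h1, h2, h3⟩
  · exact absurd h h1

lemma gen_chain {a c : ℕ} (hac : a ≤ c) (h : ∀ l, a ≤ l → l < c → e l) : K a ≤ K c := by
  induction c, hac using Nat.le_induction with
  | base => exact le_rfl
  | succ c hc ih =>
    exact (ih (fun l hl hl' => h l hl (by omega))).trans
      (gen_one hG (h c hc (by omega))).1.le

lemma gen_row {n n' : ℕ} (h : n < n') (hJ : J e n = J e n') (hn' : e n') :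
    K (n + 1) < K (n' + 1) :=
  lt_of_le_of_lt (gen_chain hG (show n + 1 ≤ n' from h)
    (fun l hl hl' => ones_of_J_eq e hJ l (by omega) hl')) (gen_one hG hn').1

lemma gen_row_zero {n : ℕ} (hJ : J e n = 0) : k ≤ K n := by
  rw [← hG.1]
  exact gen_chain hG (Nat.zero_le n) (fun l hl hl' => ones_of_J_eq e
    (by rw [hJ, J_zero] : J e 0 = J e n) l hl hl')

lemma gen_row_zero' {n : ℕ} (hJ : J e n = 0) (hn : e n) : k < K (n + 1) :=
  lt_of_le_of_lt (gen_row_zero hG hJ) (gen_one hG hn).1

end gen

open scoped Classical in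
/-- The rotor chosen for the target. -/
noncomputable def newRotor (B k : ℕ) (e e' : ℕ → Prop) : ℕ := if e 0 ∧ ¬ e' 0 then B else k

/-- **The splitting lemma.** -/
lemma split {B k : ℕ} {f : ℕ → ℕ → Prop} {e : ℕ → Prop} {K : ℕ → ℕ} (hG : Gen B k f e K)
    (e' : ℕ → Prop) (hrel : Rel e' e) :
    ∃ (f' : ℕ → ℕ → Prop) (K' : ℕ → ℕ), Gen B (newRotor B k e e') f' e' K' ∧
      ∀ i, 1 ≤ i → i ≤ B → Rel (f' i) (f i) := by
  classical
  obtain ⟨φ, hφ, hφ2⟩ := hrel
  set k' := newRotor B k e e' with hk'
  set K' : ℕ → ℕ := fun n => match n with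
    | 0 => k'
    | n + 1 => if e' n then K (φ n + 1) else 0 with hK'
  have hK'of : ∀ n, e' n → K' (n + 1) = K (φ n + 1) := by
    intro n hn
    simp [hK', hn]
  have hK'not : ∀ n, ¬ e' n → K' (n + 1) = 0 := by
    intro n hn
    simp [hK', hn]
  have hK'0 : K' 0 = k' := rfl
  set f' : ℕ → ℕ → Prop := fun i x => ∃ n, e' n ∧ K (φ n + 1) = i ∧ J e' n = x + ind i k' with hf'
  -- ones in the same row
  have h3 : ∀ m n, m < n → J e' m = J e' n → e' m → e' n → K (φ m + 1) < K (φ n + 1) := by
    intro m n hmn hJ hm hn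
    have h1 := J_gap hφ hφ2 m n hmn.le hm hn
    have h2 := (hφ2 m n hmn hm hn).1
    have h4 := J_mono e h2.le
    exact gen_row hG h2 (by omega) (hφ n hn).1
  have h4 : ∀ n, e' n → J e' n = 0 → k' < K (φ n + 1) := by
    intro n hn hJ
    have h0 : e' 0 := by
      rcases Nat.eq_zero_or_pos n with h | h
      · subst h; exact hn
      · exact ones_of_J_eq e' (by rw [hJ, J_zero] : J e' 0 = J e' n) 0 le_rfl h
    have hkk : k' = k := by
      rw [hk', newRotor, if_neg]
      rintro ⟨_, h⟩
      exact h h0
    rw [hkk]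
    have h1 := J_row_le hφ hφ2 n hn
    exact gen_row_zero' hG (by omega) (hφ n hn).1
  have h5 : ∀ n, J e' n = 0 → k' ≤ K' n := by
    intro n hJ
    cases n with
    | zero => exact le_rfl
    | succ m =>
      have hm : e' m := ones_of_J_eq e' (by rw [hJ, J_zero] : J e' 0 = J e' (m + 1)) m
        (Nat.zero_le _) (by omega)
      rw [hK'of m hm]
      rw [J_succ_of e' m hm] at hJ
      exact (h4 m hm hJ).le
  -- no witnesses in the gaps
  have hrow : ∀ n i m, K' n < i → J e' m = (J e' n - ind i k') + ind i k' →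
      J e' m = J e' n := by
    intro n i m hi hJ
    unfold ind at hJ
    split_ifs at hJ with h
    · have : J e' n ≠ 0 := fun h0 => by have := h5 n h0; omega
      omega
    · omega
  have hleft : ∀ n i m, K' n < i → e' m → K (φ m + 1) = i → J e' m = J e' n → m < n → False := by
    intro n i m hi hm hc hJ hmn
    obtain ⟨n0, rfl⟩ : ∃ n0, n = n0 + 1 := ⟨n - 1, by omega⟩
    have hn0 : e' n0 := ones_of_J_eq e' hJ n0 (by omega) (by omega)
    rw [hK'of n0 hn0] at hi
    rw [J_succ_of e' n0 hn0] at hJ
    rcases (show m ≤ n0 by omega).eq_or_lt with h | h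
    · subst h; omega
    · have := h3 m n0 h hJ hm hn0
      omega
  refine ⟨f', K', ⟨hK'0, ?_⟩, ?_⟩
  · intro n
    by_cases hn : e' n
    · left
      obtain ⟨g1, g2, g3⟩ := gen_one hG (hφ n hn).1
      rw [hK'of n hn]
      refine ⟨hn, ?_, g2, ?_, ?_⟩
      · cases n with
        | zero => rw [hK'0]; exact h4 0 hn (J_zero _)
        | succ m =>
          by_cases hm : e' m
          · rw [hK'of m hm]
            exact h3 m (m + 1) (by omega) (J_succ_of e' m hm).symm hm hn
          · rw [hK'not m hm]
            omega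
      · refine ⟨n, hn, rfl, ?_⟩
        unfold ind
        split_ifs with h
        · have : J e' n ≠ 0 := fun h0 => by have := h4 n hn h0; omega
          omega
        · omega
      · rintro i hi hi' ⟨m, hm, hc, hJ⟩
        have hJ' := hrow n i m hi hJ
        rcases lt_trichotomy m n with h | h | h
        · exact hleft n i m hi hm hc hJ' h
        · subst h; omega
        · have := h3 n m h hJ'.symm hn hm
          omega
    · right
      refine ⟨hn, hK'not n hn, ?_⟩
      rintro i hi hi' ⟨m, hm, hc, hJ⟩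
      have hJ' := hrow n i m hi hJ
      rcases lt_trichotomy m n with h | h | h
      · exact hleft n i m hi hm hc hJ' h
      · subst h; exact hn hm
      · have h6 := J_succ_not e' n hn
        have h7 := J_mono e' (show n + 1 ≤ m from h)
        omega
  · intro i hi hi'
    have hex : ∀ x, ∃ n, f' i x → (e' n ∧ K (φ n + 1) = i ∧ J e' n = x + ind i k') := by
      intro x
      by_cases h : f' i x
      · obtain ⟨n, hn⟩ := h
        exact ⟨n, fun _ => hn⟩
      · exact ⟨0, fun h' => absurd h' h⟩
    choose N hN using hex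
    have hpos : ∀ x, f' i x → ind i k ≤ J e (φ (N x)) := by
      intro x hx
      obtain ⟨a1, a2, a3⟩ := hN x hx
      unfold ind
      split_ifs with h
      · have : J e (φ (N x)) ≠ 0 := fun h0 => by
          have := gen_row_zero' hG h0 (hφ _ a1).1
          omega
        omega
      · omega
    refine ⟨fun x => J e (φ (N x)) - ind i k, ?_, ?_⟩
    · intro x hx
      obtain ⟨a1, a2, a3⟩ := hN x hx
      obtain ⟨g1, g2, g3⟩ := gen_one hG (hφ _ a1).1
      rw [a2] at g3
      refine ⟨g3, ?_⟩
      by_cases hs : e 0 ∧ ¬ e' 0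
      · have h6 := J_row_lt hφ hφ2 (N x) a1 hs.1 hs.2
        have hkk : k' = B := by rw [hk', newRotor, if_pos hs]
        have h7 : ind i k' = 1 := by rw [hkk]; unfold ind; rw [if_pos hi']
        dsimp only
        omega
      · have h6 := J_row_le hφ hφ2 (N x) a1
        have hkk : k' = k := by rw [hk', newRotor, if_neg hs]
        rw [hkk] at a3
        dsimp only
        omega
    · intro x x' hxx hx hx'
      obtain ⟨a1, a2, a3⟩ := hN x hx
      obtain ⟨c1, c2, c3⟩ := hN x' hx'
      have hlt : N x < N x' := by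
        by_contra h
        have := J_mono e' (not_lt.1 h)
        omega
      have h6 := J_gap hφ hφ2 _ _ hlt.le a1 c1
      have h7 := (hφ2 _ _ hlt a1 c1).1
      have h8 := J_mono e h7.le
      have h9 : J e (φ (N x)) ≠ J e (φ (N x')) := fun h => by
        have := gen_row hG h7 h (hφ _ c1).1
        omega
      have p1 := hpos x hx
      have p2 := hpos x' hx'
      dsimp only
      omega

end Q121.Rotor
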