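import Pool.Agent.Q121.Rotor.Defs

set_option autoImplicit false

/-!
# The recursion for the rotor walk
-/

namespace Q121.Rotor

open Filter Topology

/-- Restriction to the subtree of the child `i`. -/
def sub (i : ℕ) (b : List ℕ → ℕ) : List ℕ → ℕ := fun w => b (i :: w)

/-- The particle reaches the root from the given state. -/
def Hits (b : List ℕ → ℕ) (st : Option (List ℕ) × (List ℕ → ℕ)) : Prop :=
  ∃ t, ((step b)^[t] st).1 = none

open scoped Classical in
/-- The final rotors. -/
noncomputable def fin (b : List ℕ → ℕ) (st : Option (List ℕ) × (List ℕ → ℕ)) : List ℕ → ℕ :=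
  if h : Hits b st then ((step b)^[Nat.find h] st).2
  else fun v => limUnder atTop (fun t => ((step b)^[t] st).2 v)

open scoped Classical in
/-- The length of the walk. -/
noncomputable def len (b : List ℕ → ℕ) (st : Option (List ℕ) × (List ℕ → ℕ)) : ℕ :=
  if h : Hits b st then Nat.find h else 0

lemma hits_step (b : List ℕ → ℕ) (st : Option (List ℕ) × (List ℕ → ℕ)) (h0 : st.1 ≠ none) :
    (Hits b st ↔ Hits b (step b st)) ∧ fin b st = fin b (step b st) ∧
      (Hits b st → len b st = len b (step b st) + 1) := by
  classical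
  have h1 : Hits b st ↔ Hits b (step b st) := by
    constructor
    · rintro ⟨t, ht⟩
      cases t with
      | zero => exact absurd ht h0
      | succ t => exact ⟨t, ht⟩
    · rintro ⟨t, ht⟩
      exact ⟨t + 1, ht⟩
  have hfind : ∀ (h : Hits b st) (h' : Hits b (step b st)), Nat.find h = Nat.find h' + 1 := by
    intro h h'
    rw [Nat.find_eq_iff]
    refine ⟨Nat.find_spec h', ?_⟩
    intro n hn
    cases n with
    | zero => exact h0
    | succ n => exact Nat.find_min h' (by omega)
  refine ⟨h1, ?_, ?_⟩
  · unfold fin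
    by_cases h : Hits b st
    · have h' := h1.1 h
      rw [dif_pos h, dif_pos h', hfind h h']
      rfl
    · have h' : ¬ Hits b (step b st) := fun h' => h (h1.2 h')
      rw [dif_neg h, dif_neg h']
      funext v
      have h2 : map (fun t => ((step b)^[t] st).2 v) atTop =
          map (fun t => ((step b)^[t] (step b st)).2 v) atTop := by
        conv_lhs => rw [← map_add_atTop_eq_nat 1]
        rw [map_map]
        rfl
      unfold limUnder
      rw [h2]
  · intro h
    have h' := h1.1 h
    unfold len
    rw [dif_pos h, dif_pos h', hfind h h']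

lemma hits_iter (b : List ℕ → ℕ) (t : ℕ) : ∀ (st : Option (List ℕ) × (List ℕ → ℕ)),
    (∀ s < t, ((step b)^[s] st).1 ≠ none) →
    (Hits b st ↔ Hits b ((step b)^[t] st)) ∧ fin b st = fin b ((step b)^[t] st) ∧
      (Hits b st → len b st = len b ((step b)^[t] st) + t) := by
  induction t with
  | zero => intro st _; exact ⟨Iff.rfl, rfl, fun _ => rfl⟩
  | succ t ih =>
    intro st h
    obtain ⟨h1, h2, h3⟩ := hits_step b st (h 0 (by omega))
    obtain ⟨k1, k2, k3⟩ := ih (step b st) (fun s hs => h (s + 1) (by omega))
    refine ⟨h1.trans k1, h2.trans k2, ?_⟩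
    intro hh
    have := k3 (h1.1 hh)
    rw [h3 hh, this]
    rw [Function.iterate_succ_apply]
    ring

lemma walk_succ (b R : List ℕ → ℕ) (t : ℕ) : walk b R (t + 1) = (step b)^[t] (some [], R) := rfl

lemma returns_iff (b R : List ℕ → ℕ) : Returns b R ↔ Hits b (some [], R) := by
  constructor
  · rintro ⟨t, ht, h⟩
    obtain ⟨s, rfl⟩ : ∃ s, t = s + 1 := ⟨t - 1, by omega⟩
    exact ⟨s, h⟩
  · rintro ⟨t, h⟩
    exact ⟨t + 1, by omega, h⟩

lemma next_eq (b R : List ℕ → ℕ) : next b R = fin b (some [], R) := by
  classical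
  unfold next fin
  by_cases h : Returns b R
  · have h' := (returns_iff b R).1 h
    rw [dif_pos h, dif_pos h']
    have : Nat.find h = Nat.find h' + 1 := by
      rw [Nat.find_eq_iff]
      refine ⟨⟨by omega, Nat.find_spec h'⟩, ?_⟩
      intro n hn
      cases n with
      | zero => intro h0; exact absurd h0.1 (lt_irrefl 0)
      | succ n => intro h0; exact Nat.find_min h' (by omega) h0.2
    rw [this]
    rfl
  · have h' : ¬ Hits b (some [], R) := fun h' => h ((returns_iff b R).2 h')
    rw [dif_neg h, dif_neg h']
    funext v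
    have h2 : map (fun t => (walk b R t).2 v) atTop =
        map (fun t => ((step b)^[t] (some [], R)).2 v) atTop := by
      conv_lhs => rw [← map_add_atTop_eq_nat 1]
      rw [map_map]
      rfl
    unfold limUnder
    rw [h2]

/-- Gluing a rotor configuration of the subtree. -/
def glue (i : ℕ) (R Q : List ℕ → ℕ) : List ℕ → ℕ
  | [] => R []
  | j :: w => if j = i then Q w else R (j :: w)

/-- Embedding of states. -/
def emb (i : ℕ) (R : List ℕ → ℕ) : Option (List ℕ) × (List ℕ → ℕ) →
    Option (List ℕ) × (List ℕ → ℕ)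
  | (none, Q) => (some [], glue i R Q)
  | (some w, Q) => (some (i :: w), glue i R Q)

lemma emb_ne (i : ℕ) (R : List ℕ → ℕ) (st) : (emb i R st).1 ≠ none := by
  rcases st with ⟨_ | w, Q⟩ <;> simp [emb]

lemma emb_snd (i : ℕ) (R : List ℕ → ℕ) (st) : (emb i R st).2 = glue i R st.2 := by
  rcases st with ⟨_ | w, Q⟩ <;> simp [emb]

lemma update_glue (i : ℕ) (R Q : List ℕ → ℕ) (w : List ℕ) (k : ℕ) :
    Function.update (glue i R Q) (i :: w) k = glue i R (Function.update Q w k) := by
  funext v
  cases v with
  | nil => simp [glue]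
  | cons j v =>
    by_cases hj : j = i
    · subst hj
      by_cases hv : v = w
      · subst hv
        simp [glue]
      · rw [Function.update_of_ne (by simpa using hv)]
        simp [glue, Function.update_of_ne hv]
    · rw [Function.update_of_ne (by simp [hj])]
      simp [glue, hj]

lemma step_emb (b : List ℕ → ℕ) (i : ℕ) (R : List ℕ → ℕ) (w : List ℕ) (Q : List ℕ → ℕ) :
    step b (emb i R (some w, Q)) = emb i R (step (sub i b) (some w, Q)) := by
  have h1 : glue i R Q (i :: w) = Q w := by simp [glue]
  simp only [emb, step]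
  rw [h1, update_glue]
  have h2 : sub i b w = b (i :: w) := rfl
  rw [h2]
  generalize (Q w + 1) % (b (i :: w) + 1) = k
  unfold target
  by_cases hk : k = 0
  · by_cases hw : w = []
    · subst hw
      simp [hk]
    · simp [hk, hw, List.dropLast_cons_of_ne_nil hw]
  · simp [hk]

lemma iter_emb (b : List ℕ → ℕ) (i : ℕ) (R : List ℕ → ℕ) (t : ℕ) :
    ∀ st, (∀ s < t, ((step (sub i b))^[s] st).1 ≠ none) →
    (step b)^[t] (emb i R st) = emb i R ((step (sub i b))^[t] st) := by
  induction t with
  | zero => intro st _; rfl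
  | succ t ih =>
    intro st h
    rw [Function.iterate_succ_apply, Function.iterate_succ_apply]
    have h0 := h 0 (by omega)
    rcases st with ⟨_ | w, Q⟩
    · exact absurd rfl h0
    · rw [step_emb]
      exact ih _ (fun s hs => h (s + 1) (by omega))

/-- The rotors after the excursion to the child `i`. -/
noncomputable def exc (b : List ℕ → ℕ) (i : ℕ) (R : List ℕ → ℕ) : List ℕ → ℕ :=
  glue i (Function.update R [] i) (next (sub i b) (sub i R))

/-- The number of steps of a returning walk. -/
noncomputable def T (b R : List ℕ → ℕ) : ℕ := len b (some [], R)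

lemma last_step (b R : List ℕ → ℕ) (h : R [] = b []) :
    Returns b R ∧ next b R = Function.update R [] 0 := by
  classical
  have h1 : step b (some [], R) = (none, Function.update R [] 0) := by
    simp [step, target, h]
  obtain ⟨k1, k2, k3⟩ := hits_step b (some [], R) (by simp)
  rw [h1] at k1 k2
  have h2 : Hits b (none, Function.update R [] 0) := ⟨0, rfl⟩
  rw [returns_iff, next_eq]
  refine ⟨k1.2 h2, ?_⟩
  rw [k2]
  unfold fin
  rw [dif_pos h2]
  have : Nat.find h2 = 0 := by rw [Nat.find_eq_zero]; rfl
  rw [this]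
  rfl

lemma one_step_aux (b R : List ℕ → ℕ) (h : R [] < b []) :
    step b (some [], R) = emb (R [] + 1) (Function.update R [] (R [] + 1))
      (some [], sub (R [] + 1) R) := by
  have h1 : (R [] + 1) % (b [] + 1) = R [] + 1 := Nat.mod_eq_of_lt (by omega)
  simp only [step, emb, h1, target]
  have h2 : R [] + 1 ≠ 0 := by omega
  simp only [h2, if_false, List.nil_append]
  congr 1
  funext v
  cases v with
  | nil => simp [glue]
  | cons j v =>
    by_cases hj : j = R [] + 1
    · simp [glue, hj, sub]
    · simp [glue, hj]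

lemma one_step_return (b R : List ℕ → ℕ) (h : R [] < b [])
    (hr : Returns (sub (R [] + 1) b) (sub (R [] + 1) R)) :
    (Returns b R ↔ Returns b (exc b (R [] + 1) R)) ∧
    next b R = next b (exc b (R [] + 1) R) ∧
    (Returns b R → T (sub (R [] + 1) b) (sub (R [] + 1) R) < T b R ∧
      T b (exc b (R [] + 1) R) < T b R) := by
  classical
  set i := R [] + 1 with hi
  rw [returns_iff] at hr
  obtain ⟨k1, k2, k3⟩ := hits_step b (some [], R) (by simp)
  have h1 := one_step_aux b R h
  rw [← hi] at h1
  rw [h1] at k1 k2 k3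
  have h2 : ∀ s < Nat.find hr, ((step (sub i b))^[s] (some [], sub i R)).1 ≠ none :=
    fun s hs => Nat.find_min hr hs
  obtain ⟨l1, l2, l3⟩ := hits_iter b (Nat.find hr)
    (emb i (Function.update R [] i) (some [], sub i R)) (fun s hs => by
      rw [iter_emb b i _ s _ (fun s' hs' => h2 s' (by omega))]
      exact emb_ne _ _ _)
  rw [iter_emb b i _ _ _ h2] at l1 l2 l3
  have h3 : emb i (Function.update R [] i) ((step (sub i b))^[Nat.find hr] (some [], sub i R)) =
      (some [], exc b i R) := by
    have h4 := Nat.find_spec hr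
    have h5 : next (sub i b) (sub i R) = ((step (sub i b))^[Nat.find hr] (some [], sub i R)).2 := by
      rw [next_eq]
      unfold fin
      rw [dif_pos hr]
    unfold exc
    rw [h5]
    generalize (step (sub i b))^[Nat.find hr] (some [], sub i R) = st at h4
    rcases st with ⟨p, Q⟩
    simp only at h4
    subst h4
    rfl
  rw [h3] at l1 l2 l3
  rw [returns_iff, returns_iff, next_eq, next_eq b (exc b i R)]
  refine ⟨k1.trans l1, k2.trans l2, ?_⟩
  intro hh
  have e1 := k3 hh
  have e2 := l3 (k1.1 hh)
  have e3 : T (sub i b) (sub i R) = Nat.find hr := by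
    unfold T len
    rw [dif_pos hr]
  rw [e3]
  unfold T
  rw [e1, e2]
  omega

lemma one_step_escape (b R : List ℕ → ℕ) (h : R [] < b [])
    (hr : ¬ Returns (sub (R [] + 1) b) (sub (R [] + 1) R)) :
    ¬ Returns b R ∧ next b R = exc b (R [] + 1) R := by
  classical
  set i := R [] + 1 with hi
  rw [returns_iff] at hr
  obtain ⟨k1, k2, k3⟩ := hits_step b (some [], R) (by simp)
  have h1 := one_step_aux b R h
  rw [← hi] at h1
  rw [h1] at k1 k2 k3
  have h2 : ∀ s, ((step (sub i b))^[s] (some [], sub i R)).1 ≠ none :=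
    fun s hs => hr ⟨s, hs⟩
  have h3 : ∀ s, (step b)^[s] (emb i (Function.update R [] i) (some [], sub i R)) =
      emb i (Function.update R [] i) ((step (sub i b))^[s] (some [], sub i R)) :=
    fun s => iter_emb b i _ s _ (fun s' _ => h2 s')
  have h4 : ¬ Hits b (emb i (Function.update R [] i) (some [], sub i R)) := by
    rintro ⟨s, hs⟩
    rw [h3] at hs
    exact emb_ne _ _ _ hs
  rw [returns_iff, next_eq]
  refine ⟨fun hh => h4 (k1.1 hh), ?_⟩
  rw [k2]
  unfold fin
  rw [dif_neg h4]
  funext v
  simp only [h3, emb_snd]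
  unfold exc
  rw [next_eq]
  unfold fin
  rw [dif_neg hr]
  cases v with
  | nil =>
    simp only [glue]
    exact tendsto_const_nhds.limUnder_eq
  | cons j w =>
    by_cases hj : j = i
    · simp only [glue, hj, if_true]
    · simp only [glue, hj, if_false]
      exact tendsto_const_nhds.limUnder_eq

end Q121.Rotor
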